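import Pool.Agent.Helper64.AS.Defs

/-!
# Module `LSmid` of the project `MP_65a63f_AS`
-/

set_option autoImplicit false

open Finset MeasureTheory

namespace Pool.Agent.Helper63.AS.LSmid

open Pool.Agent.Helper64.AS

/-! ## Number of large prime divisors -/

lemma card_dvd (X : ℕ) (Q : Finset ℕ) (n : ℤ) (hX : 2 ≤ X) (hn : n ≠ 0)
    (hQ : ∀ q ∈ Q, q.Prime ∧ X < q) (hb : n.natAbs ≤ X ^ 4) :
    (Q.filter (fun q : ℕ => (q : ℤ) ∣ n)).card ≤ 4 := by
  by_contra hcon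
  push Not at hcon
  set Q' := Q.filter (fun q : ℕ => (q : ℤ) ∣ n) with hQ'
  have h1 : ∏ q ∈ Q', q ∣ n.natAbs := by
    apply Finset.prod_primes_dvd
    · intro q hq
      exact (hQ q (Finset.mem_filter.1 hq).1).1.prime
    · intro q hq
      exact Int.natCast_dvd.1 (Finset.mem_filter.1 hq).2
  have h2 : X ^ Q'.card ≤ ∏ q ∈ Q', q := by
    rw [← Finset.prod_const]
    apply Finset.prod_le_prod'
    intro q hq
    exact (hQ q (Finset.mem_filter.1 hq).1).2.le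
  have h3 : ∏ q ∈ Q', q ≤ n.natAbs := Nat.le_of_dvd (Int.natAbs_pos.2 hn) h1
  have h4 : X ^ 5 ≤ X ^ Q'.card := Nat.pow_le_pow_right (by omega) hcon
  have h5 : X ^ 4 < X ^ 5 := Nat.pow_lt_pow_right (by omega) (by norm_num)
  omega

lemma log_two_mul_le {N : ℝ} (hN : 1 < N) : Real.log (2 * N) ≤ 1 + Real.log N := by
  rw [Real.log_mul (by norm_num) (by positivity)]
  have := Real.log_two_lt_d9
  linarith

lemma log_le_two_sqrt {x : ℝ} (hx : 0 < x) : Real.log x ≤ 2 * Real.sqrt x := by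
  have h := Real.log_le_sub_one_of_pos (Real.sqrt_pos.2 hx)
  have h2 : Real.log x = 2 * Real.log (Real.sqrt x) := by
    rw [Real.log_sqrt hx.le]
    ring
  rw [h2]
  linarith

/-! ## The kernel sum for singletons -/

lemma sum_image_singleton {β : Type*} [AddCommMonoid β] (Q : Finset ℕ) (f : Finset ℕ → β) :
    ∑ A ∈ Q.image (fun q => ({q} : Finset ℕ)), f A = ∑ q ∈ Q, f {q} := by
  rw [Finset.sum_image]
  intro x _ y _ h
  simpa using h

lemma erase_image_singleton (Q : Finset ℕ) (q : ℕ) :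
    (Q.image (fun q => ({q} : Finset ℕ))).erase {q} =
      (Q.erase q).image (fun q => ({q} : Finset ℕ)) := by
  ext A
  simp only [Finset.mem_erase, Finset.mem_image]
  constructor
  · rintro ⟨h1, p, hp, rfl⟩
    refine ⟨p, ⟨?_, hp⟩, rfl⟩
    rintro rfl
    exact h1 rfl
  · rintro ⟨p, ⟨h1, hp⟩, rfl⟩
    refine ⟨?_, p, hp, rfl⟩
    intro h
    exact h1 (by simpa using h)

lemma symmDiff_singleton {p q : ℕ} (h : p ≠ q) :
    symmDiff ({p} : Finset ℕ) {q} = {p, q} := by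
  ext x
  simp only [Finset.mem_symmDiff, Finset.mem_singleton, Finset.mem_insert]
  constructor
  · rintro (⟨h1, _⟩ | ⟨h1, _⟩)
    · exact Or.inl h1
    · exact Or.inr h1
  · rintro (h1 | h1)
    · exact Or.inl ⟨h1, fun h2 => h (h1.symm.trans h2)⟩
    · exact Or.inr ⟨h1, fun h2 => h (h2.symm.trans h1)⟩

lemma kernel_sum (Q : Finset ℕ) (F : Finset ℕ → ℝ) :
    ∑ A ∈ Q.image (fun q => ({q} : Finset ℕ)),
      ∑ A' ∈ (Q.image (fun q => ({q} : Finset ℕ))).erase A, F (symmDiff A A') =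
    ∑ q ∈ Q, ∑ q' ∈ Q.erase q, F {q, q'} := by
  rw [sum_image_singleton]
  apply Finset.sum_congr rfl
  intro q _
  rw [erase_image_singleton, sum_image_singleton]
  apply Finset.sum_congr rfl
  intro q' hq'
  rw [symmDiff_singleton (Finset.ne_of_mem_erase hq').symm]

/-! ## The core estimate -/

/-- The level set estimate for frequencies `S₀` without `0`. -/
theorem core (hd : S_dual) (hm : S_mid) (hp : S_primes) (hpsi : S_psi) (r : ℕ) (hr : 1 ≤ r) :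
    ∃ C A : ℝ, 0 < C ∧ 0 < A ∧ ∀ (B N lam : ℝ) (S₀ : Finset ℤ) (k₀ : ℤ) (β : Fin r → ℤ)
      (a : ℤ × (Fin r → ℤ) → ℂ), 1 < N → N ≤ B →
      A * (B * N) ^ (((r : ℝ) + 1) / 8) * (1 + Real.log N) ≤ lam →
      lam ≤ (2 * N) ^ (((r : ℝ) + 1) / 2) →
      (∀ n ∈ S₀, n ≠ 0 ∧ |(n : ℝ)| ≤ B ∧ k₀ ≤ n ^ 2 ∧ ((n ^ 2 - k₀ : ℤ) : ℝ) ≤ 2 * B * N) →
      ∑ ξ ∈ bx r S₀ β ⌊N⌋₊, ‖a ξ‖ ^ 2 ≤ 1 →
      (volume {z ∈ cube r | lam < ‖FF r (bx r S₀ β ⌊N⌋₊) a z.1 z.2‖}).toReal ≤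
        C * (1 + Real.log N) ^ 2 * lam ^ (-(2 + 2 / ((r : ℝ) + 1))) := by
  obtain ⟨C₁, hC₁, hker⟩ := hm r hr
  obtain ⟨c, hc, hprime⟩ := hp
  obtain ⟨-, -, -, hpsi4, hpsi5, hpsi6⟩ := hpsi
  -- constants
  set c₂ : ℝ := min 1 (c ^ 2 / (C₁ * 2 ^ (r + 5))) with hc₂
  have hc₂pos : 0 < c₂ := lt_min one_pos (by positivity)
  have hc₂one : c₂ ≤ 1 := min_le_left _ _
  have hc₂le : c₂ ≤ c ^ 2 / (C₁ * 2 ^ (r + 5)) := min_le_right _ _
  set E : ℝ := 256 / c ^ 2 + (5 + 2 * r) with hE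
  have hE0 : 5 + 2 * (r : ℝ) ≤ E := by
    have : 0 ≤ 256 / c ^ 2 := by positivity
    linarith
  have hE5 : 5 ≤ E := by
    have : (0 : ℝ) ≤ r := Nat.cast_nonneg r
    linarith
  have hE256 : 256 / c ^ 2 ≤ E := by
    have : (0 : ℝ) ≤ r := Nat.cast_nonneg r
    linarith
  set D : ℝ := 2 * E / c₂ with hD
  have hDpos : 0 < D := by positivity
  set s : ℝ := 2 / ((r : ℝ) + 1) with hs
  have hr0 : (0 : ℝ) < (r : ℝ) + 1 := by positivity
  have hspos : 0 < s := by positivity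
  have hs1 : s ≤ 1 := by
    rw [hs, div_le_one hr0]
    have : (1 : ℝ) ≤ r := by exact_mod_cast hr
    linarith
  set A : ℝ := D ^ (((r : ℝ) + 1) / 2) with hA
  have hApos : 0 < A := by positivity
  have hAs : A ^ s = D := by
    rw [hA, ← Real.rpow_mul hDpos.le, hs]
    rw [show ((r : ℝ) + 1) / 2 * (2 / ((r : ℝ) + 1)) = 1 by field_simp]
    exact Real.rpow_one D
  refine ⟨2 ^ (r + 6) * (2 * Real.pi) ^ (r + 1) / (c * c₂), A, by positivity, hApos, ?_⟩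
  intro B N lam S₀ k₀ β a hN hNB hlam hlam2 hS₀ ha
  set l : ℝ := 1 + Real.log N with hl
  have hlog : 0 < Real.log N := Real.log_pos hN
  have hl1 : 1 ≤ l := by linarith
  have hlpos : 0 < l := by linarith
  have hN0 : 0 < N := by linarith
  have hB0 : 0 < B := by linarith
  have hBN : 1 ≤ B * N := one_le_mul_of_one_le_of_one_le (hN.le.trans hNB) hN.le
  have hlampos : 0 < lam := lt_of_lt_of_le (by positivity) hlam
  set Y : ℝ := (lam / l) ^ s with hY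
  have hYpos : 0 < Y := by positivity
  -- lower bound for Y
  have hY1 : D * (B * N) ^ (1 / 4 : ℝ) ≤ Y := by
    have h1 : A * (B * N) ^ (((r : ℝ) + 1) / 8) ≤ lam / l := by
      rw [le_div_iff₀ hlpos]
      exact hlam
    have h2 : (A * (B * N) ^ (((r : ℝ) + 1) / 8)) ^ s ≤ (lam / l) ^ s :=
      Real.rpow_le_rpow (by positivity) h1 hspos.le
    rw [Real.mul_rpow (by positivity) (by positivity), hAs, ← Real.rpow_mul (by positivity)] at h2
    rw [show ((r : ℝ) + 1) / 8 * s = 1 / 4 by rw [hs]; field_simp; norm_num] at h2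
    exact h2
  -- upper bound for Y
  have hY2 : Y ≤ 2 * N := by
    have h1 : lam / l ≤ (2 * N) ^ (((r : ℝ) + 1) / 2) := by
      refine le_trans (div_le_self hlampos.le hl1) hlam2
    have h2 : (lam / l) ^ s ≤ ((2 * N) ^ (((r : ℝ) + 1) / 2)) ^ s :=
      Real.rpow_le_rpow (by positivity) h1 hspos.le
    rw [← Real.rpow_mul (by positivity), hs,
      show ((r : ℝ) + 1) / 2 * (2 / ((r : ℝ) + 1)) = 1 by field_simp, Real.rpow_one] at h2
    exact h2
  have hBN4 : 1 ≤ (B * N) ^ (1 / 4 : ℝ) := Real.one_le_rpow hBN (by norm_num)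
  have hcY : 2 * E * (B * N) ^ (1 / 4 : ℝ) ≤ c₂ * Y := by
    have h1 : c₂ * (D * (B * N) ^ (1 / 4 : ℝ)) ≤ c₂ * Y :=
      mul_le_mul_of_nonneg_left hY1 hc₂pos.le
    have h2 : c₂ * (D * (B * N) ^ (1 / 4 : ℝ)) = 2 * E * (B * N) ^ (1 / 4 : ℝ) := by
      rw [hD]
      field_simp
    linarith
  have hcY2 : 2 * E ≤ c₂ * Y := le_trans (le_mul_of_one_le_right (by linarith) hBN4) hcY
  set X : ℕ := ⌊c₂ * Y⌋₊ with hX
  have hXle : (X : ℝ) ≤ c₂ * Y := Nat.floor_le (by positivity)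
  have hXge : c₂ * Y / 2 ≤ X := by
    have h1 : c₂ * Y < X + 1 := Nat.lt_floor_add_one _
    linarith
  have hXE : E * (B * N) ^ (1 / 4 : ℝ) ≤ X := by linarith
  have hXE1 : E ≤ X := le_trans (le_mul_of_one_le_right (by linarith) hBN4) hXE
  have hX5 : (5 : ℝ) ≤ X := by linarith
  have hX2 : 2 ≤ X := by
    have : (2 : ℝ) ≤ X := by linarith
    exact_mod_cast this
  have hXpos : (0 : ℝ) < X := by linarith
  -- powers of X
  have hX4 : (5 + 2 * (r : ℝ)) * (B * N) ≤ (X : ℝ) ^ 4 := by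
    have h1 : (E * (B * N) ^ (1 / 4 : ℝ)) ^ 4 ≤ (X : ℝ) ^ 4 :=
      pow_le_pow_left₀ (by positivity) hXE 4
    have h2 : (E * (B * N) ^ (1 / 4 : ℝ)) ^ 4 = E ^ 4 * (B * N) := by
      rw [mul_pow, ← Real.rpow_natCast, ← Real.rpow_natCast ((B * N) ^ (1 / 4 : ℝ)),
        ← Real.rpow_mul (by positivity)]
      norm_num
    have h3 : E ≤ E ^ 4 := by
      calc E = E ^ 1 := (pow_one E).symm
        _ ≤ E ^ 4 := pow_le_pow_right₀ (by linarith) (by norm_num)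
    have h4 : (5 + 2 * (r : ℝ)) * (B * N) ≤ E ^ 4 * (B * N) :=
      mul_le_mul_of_nonneg_right (by linarith) (by linarith)
    linarith
  have hXsq : 3 * N ≤ (X : ℝ) ^ 2 := by
    have h1 : (E * (B * N) ^ (1 / 4 : ℝ)) ^ 2 ≤ (X : ℝ) ^ 2 :=
      pow_le_pow_left₀ (by positivity) hXE 2
    have h2 : (E * (B * N) ^ (1 / 4 : ℝ)) ^ 2 = E ^ 2 * (B * N) ^ (1 / 2 : ℝ) := by
      rw [mul_pow, ← Real.rpow_natCast ((B * N) ^ (1 / 4 : ℝ)),
        ← Real.rpow_mul (by positivity)]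
      norm_num
    have h3 : N ≤ (B * N) ^ (1 / 2 : ℝ) := by
      rw [← Real.sqrt_eq_rpow]
      apply Real.le_sqrt_of_sq_le
      rw [sq]
      exact mul_le_mul_of_nonneg_right hNB hN0.le
    have h4 : (3 : ℝ) ≤ E ^ 2 := by nlinarith only [hE5]
    calc 3 * N ≤ E ^ 2 * (B * N) ^ (1 / 2 : ℝ) := mul_le_mul h4 h3 hN0.le (by positivity)
      _ ≤ (X : ℝ) ^ 2 := by rw [← h2]; exact h1
  -- the logarithm of X
  have hlogX : Real.log X ≤ l := by
    have h1 : Real.log X ≤ Real.log (2 * N) := by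
      apply Real.log_le_log hXpos
      have : c₂ * Y ≤ 1 * (2 * N) := mul_le_mul hc₂one hY2 hYpos.le zero_le_one
      linarith
    exact h1.trans (log_two_mul_le hN)
  have hlogXpos : 0 < Real.log X := Real.log_pos (by linarith)
  -- the primes
  set Q : Finset ℕ := (Finset.Ioc X (4 * X)).filter Nat.Prime with hQ
  have hQcard : c * X / Real.log X ≤ (Q.card : ℝ) := hprime X hX2
  have hQcard2 : c * X / l ≤ (Q.card : ℝ) := by
    refine le_trans ?_ hQcard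
    exact div_le_div_of_nonneg_left (by positivity) hlogXpos hlogX
  have hQ8 : (8 : ℝ) ≤ Q.card := by
    refine le_trans ?_ hQcard
    rw [le_div_iff₀ hlogXpos]
    have h1 := log_le_two_sqrt hXpos
    have h2 : 256 / c ^ 2 ≤ (X : ℝ) := hE256.trans hXE1
    have h3 : 16 / c ≤ Real.sqrt X := by
      apply Real.le_sqrt_of_sq_le
      rw [div_pow]
      norm_num
      exact h2
    have h4 : 16 ≤ c * Real.sqrt X := by
      rw [div_le_iff₀ hc] at h3
      linarith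
    have h5 : Real.sqrt X * Real.sqrt X = X := Real.mul_self_sqrt hXpos.le
    have h6 : 0 < Real.sqrt X := Real.sqrt_pos.2 hXpos
    have h7 : 16 * Real.sqrt X ≤ c * Real.sqrt X * Real.sqrt X :=
      mul_le_mul_of_nonneg_right h4 h6.le
    rw [mul_assoc, h5] at h7
    linarith
  have hQmem : ∀ q ∈ Q, q.Prime ∧ X < q ∧ q ≤ 4 * X := by
    intro q hq
    simp only [hQ, Finset.mem_filter, Finset.mem_Ioc] at hq
    exact ⟨hq.2, hq.1.1, hq.1.2⟩
  have hQpos : 0 < Q.card := by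
    have : (0 : ℝ) < Q.card := by linarith
    exact_mod_cast this
  -- M and M'
  set L : ℕ := ⌊N⌋₊ with hL
  have hLN : (L : ℝ) ≤ N := Nat.floor_le hN0.le
  set M : ℕ := ⌈(4 + 2 * (r : ℝ)) * (B * N)⌉₊ with hM
  have hM1 : (4 + 2 * (r : ℝ)) * (B * N) ≤ M := Nat.le_ceil _
  have hM2 : (M : ℝ) ≤ (5 + 2 * (r : ℝ)) * (B * N) := by
    have h1 : (M : ℝ) < (4 + 2 * (r : ℝ)) * (B * N) + 1 := Nat.ceil_lt_add_one (by positivity)
    have h2 : (5 + 2 * (r : ℝ)) * (B * N) = (4 + 2 * (r : ℝ)) * (B * N) + B * N := by ring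
    linarith
  have hMone : 1 ≤ M := by
    have h0 : (0 : ℝ) ≤ r := Nat.cast_nonneg r
    have : (1 : ℝ) ≤ M := by
      refine le_trans ?_ hM1
      exact one_le_mul_of_one_le_of_one_le (by linarith) hBN
    exact_mod_cast this
  have hMX : M ≤ X ^ 4 := by
    have : (M : ℝ) ≤ (X : ℝ) ^ 4 := hM2.trans hX4
    exact_mod_cast this
  set M' : ℕ := 2 * L + 1 with hM'
  have hM'X : M' ≤ X ^ 2 := by
    have : (M' : ℝ) ≤ (X : ℝ) ^ 2 := by
      rw [hM']
      push_cast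
      linarith
    exact_mod_cast this
  have hBX : B ≤ (X : ℝ) ^ 4 := by
    have h0 : (0 : ℝ) ≤ r := Nat.cast_nonneg r
    calc B ≤ B * N := le_mul_of_one_le_right hB0.le hN.le
      _ ≤ (5 + 2 * (r : ℝ)) * (B * N) := le_mul_of_one_le_left (by positivity) (by linarith)
      _ ≤ (X : ℝ) ^ 4 := hX4
  -- the sets
  set 𝒜 : Finset (Finset ℕ) := Q.image (fun q => ({q} : Finset ℕ)) with h𝒜
  have h𝒜card : 𝒜.card = Q.card := by
    apply Finset.card_image_of_injective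
    intro x y h
    simpa using h
  have hphi : ∀ (q : ℕ) (m : ℤ), phi 0 {q} m = psi 0 q m := by
    intro q m
    simp [phi]
  have key := hd r M M' L k₀ 0 (1 / 4) lam S₀ β a 𝒜 hMone (by omega) (by omega) (by norm_num)
    hlampos ?_ ?_ ?_ ?_ ?_ ?_ ha
  · -- the conclusion
    refine key.trans ?_
    rw [h𝒜card]
    have h1 : c * c₂ * Y / (2 * l) ≤ (Q.card : ℝ) := by
      refine le_trans ?_ hQcard2
      have h0 : c * c₂ * Y / (2 * l) = c * (c₂ * Y / 2) / l := by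
        field_simp
      rw [h0]
      exact div_le_div_of_nonneg_right (mul_le_mul_of_nonneg_left hXge hc.le) hlpos.le
    have h2 : Y * l ^ s = lam ^ s := by
      rw [hY, Real.div_rpow hlampos.le hlpos.le]
      field_simp
    have h3 : lam ^ (-(2 + 2 / ((r : ℝ) + 1))) = 1 / (lam ^ 2 * lam ^ s) := by
      rw [← hs, Real.rpow_neg hlampos.le, Real.rpow_add hlampos, one_div, Real.rpow_two]
    rw [h3]
    have h4 : l ^ s ≤ l := by
      calc l ^ s ≤ l ^ (1 : ℝ) := Real.rpow_le_rpow_of_exponent_le hl1 hs1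
        _ = l := Real.rpow_one l
    have h5 : 2 ^ (r + 3) * (2 * Real.pi) ^ (r + 1) / (1 / 4 * (Q.card : ℝ) * lam ^ 2) ≤
        2 ^ (r + 3) * (2 * Real.pi) ^ (r + 1) /
          (1 / 4 * (c * c₂ * Y / (2 * l)) * lam ^ 2) := by
      apply div_le_div_of_nonneg_left (by positivity) (by positivity)
      gcongr
    refine h5.trans ?_
    have h6 : 2 ^ (r + 3) * (2 * Real.pi) ^ (r + 1) /
          (1 / 4 * (c * c₂ * Y / (2 * l)) * lam ^ 2) =
        2 ^ (r + 6) * (2 * Real.pi) ^ (r + 1) / (c * c₂) * (l * l ^ s) *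
          (1 / (lam ^ 2 * lam ^ s)) := by
      rw [← h2]
      field_simp
      ring
    rw [h6]
    have h7 : l * l ^ s ≤ l ^ 2 := by
      rw [sq]
      exact mul_le_mul_of_nonneg_left h4 hlpos.le
    have h8 : 0 ≤ 2 ^ (r + 6) * (2 * Real.pi) ^ (r + 1) / (c * c₂) := by positivity
    have h9 : 0 ≤ 1 / (lam ^ 2 * lam ^ s) := by positivity
    exact mul_le_mul_of_nonneg_right (mul_le_mul_of_nonneg_left h7 h8) h9
  · -- nonempty
    rw [h𝒜]
    exact (Finset.card_pos.1 hQpos).image _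
  · -- sizes
    intro n hn
    obtain ⟨_, hn2, hn3, hn4⟩ := hS₀ n hn
    refine ⟨hn3, ?_⟩
    have h1 : ((2 * (n ^ 2 - k₀ + r * (L : ℤ) ^ 2) : ℤ) : ℝ) ≤ ((M : ℤ) : ℝ) := by
      have h2 : (L : ℝ) ^ 2 ≤ B * N := by
        have h3 : (0 : ℝ) ≤ L := Nat.cast_nonneg L
        rw [sq]
        exact mul_le_mul (hLN.trans hNB) hLN h3 hB0.le
      have h3 : (r : ℝ) * (L : ℝ) ^ 2 ≤ r * (B * N) :=
        mul_le_mul_of_nonneg_left h2 (Nat.cast_nonneg r)
      push_cast at hn4 ⊢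
      have h4 : (4 + 2 * (r : ℝ)) * (B * N) = 2 * (2 * B * N) + 2 * (r * (B * N)) := by ring
      have h5 : 2 * ((n : ℝ) ^ 2 - k₀ + r * (L : ℝ) ^ 2) =
        2 * ((n : ℝ) ^ 2 - k₀) + 2 * (r * (L : ℝ) ^ 2) := by ring
      rw [h5]
      linarith
    exact_mod_cast h1
  · -- bounded
    intro A' hA' m
    rw [h𝒜, Finset.mem_image] at hA'
    obtain ⟨q, hq, rfl⟩ := hA'
    rw [hphi]
    exact hpsi4 q m (hQmem q hq).1
  · -- multiplicative
    intro A₁ hA₁ A₂ hA₂ hne m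
    rw [h𝒜, Finset.mem_image] at hA₁ hA₂
    obtain ⟨p, hp, rfl⟩ := hA₁
    obtain ⟨q, hq, rfl⟩ := hA₂
    have hpq : p ≠ q := by
      rintro rfl
      exact hne rfl
    rw [symmDiff_singleton hpq]
    simp only [phi, Finset.prod_singleton]
    rw [Finset.prod_pair hpq]
  · -- lower bound on squares
    intro n hn
    obtain ⟨hn1, hn2, hn3, hn4⟩ := hS₀ n hn
    rw [h𝒜card, h𝒜, sum_image_singleton]
    have h1 : ∑ q ∈ Q, phi 0 {q} (n ^ 2) = (Q.card : ℝ) -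
        ((Q.filter (fun q : ℕ => (q : ℤ) ∣ n)).card : ℝ) := by
      have h2 : ∀ q ∈ Q, phi 0 {q} (n ^ 2) = 1 - (if (q : ℤ) ∣ n then (1 : ℝ) else 0) := by
        intro q hq
        rw [hphi]
        by_cases hqn : (q : ℤ) ∣ n
        · rw [if_pos hqn, hpsi6 q n (hQmem q hq).1 hqn]
          norm_num
        · rw [if_neg hqn, hpsi5 q n (hQmem q hq).1 hqn]
          norm_num
      rw [Finset.sum_congr rfl h2, Finset.sum_sub_distrib, Finset.sum_const, nsmul_eq_mul,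
        mul_one, Finset.sum_boole]
    rw [h1]
    have h3 : (Q.filter (fun q : ℕ => (q : ℤ) ∣ n)).card ≤ 4 := by
      apply card_dvd X Q n hX2 hn1 (fun q hq => ⟨(hQmem q hq).1, (hQmem q hq).2.1⟩)
      have h4 : ((n.natAbs : ℕ) : ℝ) ≤ ((X ^ 4 : ℕ) : ℝ) := by
        rw [Nat.cast_natAbs]
        push_cast
        exact hn2.trans hBX
      exact_mod_cast h4
    have h4 : ((Q.filter (fun q : ℕ => (q : ℤ) ∣ n)).card : ℝ) ≤ 4 := by exact_mod_cast h3
    have h5 : (Q.card : ℝ) / 2 ≤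
        (Q.card : ℝ) - ((Q.filter (fun q : ℕ => (q : ℤ) ∣ n)).card : ℝ) := by linarith
    have h6 := pow_le_pow_left₀ (by positivity) h5 2
    have h7 : ((Q.card : ℝ) / 2) ^ 2 = 1 / 4 * (Q.card : ℝ) ^ 2 := by ring
    rw [h7] at h6
    exact h6
  · -- the kernel
    intro t x
    rw [h𝒜, kernel_sum Q (fun T => ‖KA r M M' k₀ 0 T t x‖)]
    rw [← h𝒜, h𝒜card]
    refine (hker M M' X k₀ Q t x hMone (by omega) hX2 hMX hM'X hQmem).trans ?_
    -- C₁ X^{r+1} 2^{r+5} ≤ c² (lam/l)²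
    have h1 : (X : ℝ) ^ (r + 1) ≤ c₂ * (lam / l) ^ 2 := by
      have h2 : (X : ℝ) ^ (r + 1) ≤ (c₂ * Y) ^ (r + 1) := pow_le_pow_left₀ hXpos.le hXle _
      have h3 : Y ^ (r + 1) = (lam / l) ^ 2 := by
        rw [hY, ← Real.rpow_natCast ((lam / l) ^ s), ← Real.rpow_mul (by positivity), hs]
        push_cast
        rw [show 2 / ((r : ℝ) + 1) * ((r : ℝ) + 1) = 2 by field_simp]
        norm_num
      rw [mul_pow, h3] at h2
      have h4 : c₂ ^ (r + 1) ≤ c₂ := by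
        calc c₂ ^ (r + 1) ≤ c₂ ^ 1 :=
              pow_le_pow_of_le_one hc₂pos.le hc₂one (by omega)
          _ = c₂ := pow_one c₂
      exact h2.trans (mul_le_mul_of_nonneg_right h4 (by positivity))
    have h2 : C₁ * 2 ^ (r + 5) * (X : ℝ) ^ (r + 1) ≤ c ^ 2 * (lam / l) ^ 2 := by
      have h3 : C₁ * 2 ^ (r + 5) * c₂ ≤ c ^ 2 := by
        have := mul_le_mul_of_nonneg_left hc₂le (by positivity : 0 ≤ C₁ * 2 ^ (r + 5))
        rwa [mul_div_cancel₀ _ (by positivity)] at this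
      calc C₁ * 2 ^ (r + 5) * (X : ℝ) ^ (r + 1)
          ≤ C₁ * 2 ^ (r + 5) * (c₂ * (lam / l) ^ 2) :=
            mul_le_mul_of_nonneg_left h1 (by positivity)
        _ = (C₁ * 2 ^ (r + 5) * c₂) * (lam / l) ^ 2 := by ring
        _ ≤ c ^ 2 * (lam / l) ^ 2 := mul_le_mul_of_nonneg_right h3 (by positivity)
    have h3 : (c * X / l) ^ 2 ≤ (Q.card : ℝ) ^ 2 := pow_le_pow_left₀ (by positivity) hQcard2 2
    have h4 : C₁ * (X : ℝ) ^ (r + 3) ≤ 1 / 4 * (Q.card : ℝ) ^ 2 * lam ^ 2 / 2 ^ (r + 3) := by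
      rw [le_div_iff₀ (by positivity)]
      have h5 : C₁ * (X : ℝ) ^ (r + 3) * 2 ^ (r + 3) =
          1 / 4 * ((X : ℝ) ^ 2 * (C₁ * 2 ^ (r + 5) * (X : ℝ) ^ (r + 1))) := by ring
      have h6 : (X : ℝ) ^ 2 * (c ^ 2 * (lam / l) ^ 2) = (c * X / l) ^ 2 * lam ^ 2 := by
        field_simp
      rw [h5]
      calc 1 / 4 * ((X : ℝ) ^ 2 * (C₁ * 2 ^ (r + 5) * (X : ℝ) ^ (r + 1)))
          ≤ 1 / 4 * ((X : ℝ) ^ 2 * (c ^ 2 * (lam / l) ^ 2)) := by gcongr
        _ = 1 / 4 * ((c * X / l) ^ 2 * lam ^ 2) := by rw [h6]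
        _ ≤ 1 / 4 * ((Q.card : ℝ) ^ 2 * lam ^ 2) := by gcongr
        _ = 1 / 4 * (Q.card : ℝ) ^ 2 * lam ^ 2 := by ring
    calc C₁ * M * M' ^ r * (X : ℝ) ^ (r + 3) = (C₁ * (X : ℝ) ^ (r + 3)) * (M * M' ^ r) := by ring
      _ ≤ (1 / 4 * (Q.card : ℝ) ^ 2 * lam ^ 2 / 2 ^ (r + 3)) * (M * M' ^ r) :=
          mul_le_mul_of_nonneg_right h4 (by positivity)
      _ = 1 / 4 * (Q.card : ℝ) ^ 2 * M * M' ^ r * lam ^ 2 / 2 ^ (r + 3) := by ring

/-! ## The trivial bound -/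

lemma norm_FF_sq_le (r : ℕ) (S : Finset (ℤ × (Fin r → ℤ))) (a : ℤ × (Fin r → ℤ) → ℂ) (t : ℝ)
    (x : Fin r → ℝ) : ‖FF r S a t x‖ ^ 2 ≤ S.card * ∑ ξ ∈ S, ‖a ξ‖ ^ 2 := by
  have h1 : ‖FF r S a t x‖ ≤ ∑ ξ ∈ S, ‖a ξ‖ := by
    unfold FF
    refine (norm_sum_le _ _).trans (le_of_eq ?_)
    apply Finset.sum_congr rfl
    intro ξ _
    rw [norm_mul, Complex.norm_exp_ofReal_mul_I, mul_one]
  calc ‖FF r S a t x‖ ^ 2 ≤ (∑ ξ ∈ S, ‖a ξ‖) ^ 2 := pow_le_pow_left₀ (norm_nonneg _) h1 2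
    _ ≤ S.card * ∑ ξ ∈ S, ‖a ξ‖ ^ 2 := sq_sum_le_card_mul_sum_sq

lemma card_Icc_le {u N : ℝ} (hN : 1 < N) : ((Finset.Icc ⌈u⌉ ⌊u + N⌋).card : ℝ) ≤ 2 * N := by
  rw [Int.card_Icc]
  rcases le_or_gt (⌊u + N⌋ + 1 - ⌈u⌉) 0 with h | h
  · rw [Int.toNat_of_nonpos h]
    push_cast
    linarith
  · have h1 : (((⌊u + N⌋ + 1 - ⌈u⌉).toNat : ℤ) : ℝ) = ((⌊u + N⌋ + 1 - ⌈u⌉ : ℤ) : ℝ) := by
      rw [Int.toNat_of_nonneg h.le]
    have h2 : (((⌊u + N⌋ + 1 - ⌈u⌉).toNat : ℕ) : ℝ) = ((⌊u + N⌋ + 1 - ⌈u⌉ : ℤ) : ℝ) := by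
      rw [← h1]
      norm_cast
    rw [h2]
    push_cast
    have h3 := Int.floor_le (u + N)
    have h4 := Int.le_ceil u
    linarith

lemma card_box_le (r : ℕ) (b : Fin (r + 1) → ℝ) {N : ℝ} (hN : 1 < N) :
    ((box r b N).card : ℝ) ≤ (2 * N) ^ (r + 1) := by
  unfold Pool.Agent.Helper64.AS.box
  rw [Finset.card_product, Fintype.card_piFinset]
  push_cast
  rw [pow_succ']
  apply mul_le_mul (card_Icc_le hN) _ (by positivity) (by linarith)
  calc ∏ l : Fin r, ((Finset.Icc ⌈b l.succ⌉ ⌊b l.succ + N⌋).card : ℝ)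
      ≤ ∏ _l : Fin r, (2 * N) :=
        Finset.prod_le_prod (fun _ _ => by positivity) (fun l _ => card_Icc_le hN)
    _ = (2 * N) ^ r := by simp

/-! ## Splitting off the layer `n = 0` -/

lemma FF_bx (r : ℕ) (S₀ : Finset ℤ) (β : Fin r → ℤ) (L : ℕ) (a : ℤ × (Fin r → ℤ) → ℂ) (t : ℝ)
    (x : Fin r → ℝ) : FF r (bx r S₀ β L) a t x =
      ∑ n ∈ S₀, ∑ m ∈ Fintype.piFinset (fun l => Finset.Icc (β l) (β l + L)),
        a (n, m) * Complex.exp (((∑ l, x l * m l - t * ((n : ℝ) ^ 2 + ∑ l, (m l : ℝ) ^ 2) : ℝ) : ℂ)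
          * Complex.I) := by
  unfold FF bx
  rw [Finset.sum_product]

lemma norm_layer (r : ℕ) (β : Fin r → ℤ) (L : ℕ) (a : ℤ × (Fin r → ℤ) → ℂ) (t : ℝ)
    (x : Fin r → ℝ) : ‖FF r (bx r {0} β L) a t x‖ =
      ‖FF r (bx r {1} β L) (fun ξ => a (0, ξ.2)) t x‖ := by
  rw [FF_bx, FF_bx, Finset.sum_singleton, Finset.sum_singleton]
  have h : ∑ m ∈ Fintype.piFinset (fun l => Finset.Icc (β l) (β l + L)),
        a (0, m) * Complex.exp (((∑ l, x l * m l - t * (((1 : ℤ) : ℝ) ^ 2 +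
          ∑ l, (m l : ℝ) ^ 2) : ℝ) : ℂ) * Complex.I) =
      Complex.exp (((-t : ℝ) : ℂ) * Complex.I) *
        ∑ m ∈ Fintype.piFinset (fun l => Finset.Icc (β l) (β l + L)),
        a (0, m) * Complex.exp (((∑ l, x l * m l - t * (((0 : ℤ) : ℝ) ^ 2 +
          ∑ l, (m l : ℝ) ^ 2) : ℝ) : ℂ) * Complex.I) := by
    rw [Finset.mul_sum]
    apply Finset.sum_congr rfl
    intro m _
    rw [mul_left_comm, ← Complex.exp_add]
    congr 2
    push_cast
    ring
  simp only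
  rw [h, norm_mul, Complex.norm_exp_ofReal_mul_I, one_mul]

lemma cube_finite (r : ℕ) : volume (cube r) < ⊤ :=
  (isCompact_Icc.prod isCompact_Icc).measure_lt_top

lemma box_subset (r : ℕ) (b : Fin (r + 1) → ℝ) {N : ℝ} (hN : 1 < N) :
    box r b N ⊆ bx r (insert 0 ((Finset.Icc ⌈b 0⌉ ⌊b 0 + N⌋).erase 0))
      (fun l => ⌈b l.succ⌉) ⌊N⌋₊ := by
  intro ξ hξ
  unfold Pool.Agent.Helper64.AS.box at hξ
  unfold bx
  rw [Finset.mem_product] at hξ ⊢
  refine ⟨?_, ?_⟩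
  · rw [Finset.mem_insert, Finset.mem_erase]
    by_cases h : ξ.1 = 0
    · exact Or.inl h
    · exact Or.inr ⟨h, hξ.1⟩
  · rw [Fintype.mem_piFinset] at hξ ⊢
    intro l
    have h1 := hξ.2 l
    rw [Finset.mem_Icc] at h1 ⊢
    refine ⟨h1.1, ?_⟩
    have h2 : ξ.2 l - ⌈b l.succ⌉ ≤ ⌊N⌋ := by
      rw [Int.le_floor]
      push_cast
      have h3 : ((ξ.2 l : ℤ) : ℝ) ≤ b l.succ + N := Int.le_floor.1 h1.2
      have h4 := Int.le_ceil (b l.succ)
      linarith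
    have h5 : ((⌊N⌋₊ : ℕ) : ℤ) = ⌊N⌋ := Int.natCast_floor_eq_floor (by linarith)
    rw [h5]
    linarith

/-- **Module `LSmid`.** -/
theorem lsmid_of (hd : S_dual) (hm : S_mid) (hp : S_primes) (hpsi : S_psi) : S_LSmid := by
  intro r hr
  obtain ⟨C, A, hC, hA, hcore⟩ := core hd hm hp hpsi r hr
  refine ⟨16 * C, 2 * A, by positivity, by positivity, ?_⟩
  intro b N lam a hN hlam ha
  set B : ℝ := |b 0| + N with hB
  have hN0 : 0 < N := by linarith
  have hNB : N ≤ B := by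
    have := abs_nonneg (b 0)
    linarith
  have hB0 : 0 < B := by linarith
  have hlog : 0 < Real.log N := Real.log_pos hN
  have hlampos : 0 < lam := lt_of_lt_of_le (by positivity) hlam
  have hr1 : (1 : ℝ) ≤ r := by exact_mod_cast hr
  by_cases hbig : (2 * N) ^ (((r : ℝ) + 1) / 2) < lam
  · -- the set is empty
    have hempty : {z ∈ cube r | lam < ‖FF r (box r b N) a z.1 z.2‖} = ∅ := by
      ext z
      simp only [Set.mem_sep_iff, Set.mem_empty_iff_false, iff_false, not_and, not_lt]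
      intro _
      have h1 := norm_FF_sq_le r (box r b N) a z.1 z.2
      have h2 : ‖FF r (box r b N) a z.1 z.2‖ ^ 2 ≤ (2 * N) ^ (r + 1) := by
        refine h1.trans ?_
        calc ((box r b N).card : ℝ) * ∑ ξ ∈ box r b N, ‖a ξ‖ ^ 2
            ≤ (2 * N) ^ (r + 1) * 1 := mul_le_mul (card_box_le r b hN) ha
              (Finset.sum_nonneg (fun _ _ => by positivity)) (by positivity)
          _ = (2 * N) ^ (r + 1) := mul_one _
      have h3 : ((2 * N) ^ (((r : ℝ) + 1) / 2)) ^ 2 = (2 * N) ^ (r + 1) := by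
        rw [← Real.rpow_natCast, ← Real.rpow_mul (by positivity), ← Real.rpow_natCast]
        congr 1
        push_cast
        ring
      rw [← h3] at h2
      have h4 := (pow_le_pow_iff_left₀ (norm_nonneg _) (by positivity) two_ne_zero).1 h2
      exact h4.trans hbig.le
    rw [hempty, measure_empty, ENNReal.toReal_zero]
    positivity
  · push Not at hbig
    set β : Fin r → ℤ := fun l => ⌈b l.succ⌉ with hβ
    set L : ℕ := ⌊N⌋₊ with hL
    set S₁ : Finset ℤ := (Finset.Icc ⌈b 0⌉ ⌊b 0 + N⌋).erase 0 with hS₁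
    set a' : ℤ × (Fin r → ℤ) → ℂ := fun ξ => if ξ ∈ box r b N then a ξ else 0 with ha'
    have hsumle : ∀ T : Finset (ℤ × (Fin r → ℤ)), ∑ ξ ∈ T, ‖a' ξ‖ ^ 2 ≤ 1 := by
      intro T
      have h1 : ∑ ξ ∈ T, ‖a' ξ‖ ^ 2 = ∑ ξ ∈ T ∩ box r b N, ‖a ξ‖ ^ 2 := by
        rw [← Finset.sum_ite_mem]
        apply Finset.sum_congr rfl
        intro ξ _
        simp only [ha']
        split_ifs <;> simp
      rw [h1]
      refine le_trans ?_ ha
      exact Finset.sum_le_sum_of_subset_of_nonneg Finset.inter_subset_right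
        (fun _ _ _ => by positivity)
    have hFF : ∀ t x, FF r (box r b N) a t x =
        FF r (bx r {0} β L) a' t x + FF r (bx r S₁ β L) a' t x := by
      intro t x
      have h1 : FF r (box r b N) a t x = FF r (bx r (insert 0 S₁) β L) a' t x := by
        unfold FF
        rw [← Finset.sum_subset (box_subset r b hN)]
        · apply Finset.sum_congr rfl
          intro ξ hξ
          simp only [ha']
          rw [if_pos hξ]
        · intro ξ _ hξ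
          simp only [ha']
          rw [if_neg hξ, zero_mul]
      rw [h1, FF_bx, FF_bx, FF_bx, Finset.sum_insert (Finset.notMem_erase _ _),
        Finset.sum_singleton]
    have hlam2 : A * (B * N) ^ (((r : ℝ) + 1) / 8) * (1 + Real.log N) ≤ lam / 2 := by
      linarith
    have hbig2 : lam / 2 ≤ (2 * N) ^ (((r : ℝ) + 1) / 2) := by linarith
    have hB1 : 1 ≤ B := by linarith
    -- layer n = 0
    have h0 := hcore B N (lam / 2) {1} 1 β (fun ξ => a' (0, ξ.2)) hN hNB hlam2 hbig2 (by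
      intro n hn
      rw [Finset.mem_singleton] at hn
      subst hn
      refine ⟨by norm_num, ?_, by norm_num, ?_⟩
      · norm_num
        exact hB1
      · norm_num
        positivity) (by
      have h1 : ∑ ξ ∈ bx r {1} β L, ‖a' (0, ξ.2)‖ ^ 2 = ∑ ξ ∈ bx r {0} β L, ‖a' ξ‖ ^ 2 := by
        unfold bx
        rw [Finset.sum_product, Finset.sum_product, Finset.sum_singleton, Finset.sum_singleton]
      have h2 := hsumle (bx r {0} β L)
      rw [← h1] at h2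
      exact h2)
    -- the other layers
    obtain ⟨k₀, hk₀⟩ : ∃ k₀ : ℤ, ∀ n ∈ S₁, k₀ ≤ n ^ 2 ∧ ((n ^ 2 - k₀ : ℤ) : ℝ) ≤ 2 * B * N := by
      rcases S₁.eq_empty_or_nonempty with h | h
      · exact ⟨0, by simp [h]⟩
      · obtain ⟨m, hm1, hm2⟩ := S₁.exists_min_image (fun n => n ^ 2) h
        refine ⟨m ^ 2, fun n hn => ⟨hm2 n hn, ?_⟩⟩
        have hbd : ∀ n ∈ S₁, b 0 ≤ n ∧ (n : ℝ) ≤ b 0 + N := by
          intro n hn
          rw [hS₁, Finset.mem_erase, Finset.mem_Icc] at hn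
          exact ⟨Int.ceil_le.1 hn.2.1, Int.le_floor.1 hn.2.2⟩
        obtain ⟨hn1, hn2⟩ := hbd n hn
        obtain ⟨hm3, hm4⟩ := hbd m hm1
        have e1 : |(n : ℝ) - m| ≤ N := abs_le.2 ⟨by linarith, by linarith⟩
        have e2 : |(n : ℝ) + m| ≤ 2 * B := by
          have h5 := neg_abs_le (b 0)
          have h6 := le_abs_self (b 0)
          exact abs_le.2 ⟨by linarith, by linarith⟩
        have e3 : ((n ^ 2 - m ^ 2 : ℤ) : ℝ) = ((n : ℝ) + m) * ((n : ℝ) - m) := by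
          push_cast
          ring
        rw [e3]
        calc ((n : ℝ) + m) * ((n : ℝ) - m) ≤ |((n : ℝ) + m) * ((n : ℝ) - m)| := le_abs_self _
          _ = |(n : ℝ) + m| * |(n : ℝ) - m| := abs_mul _ _
          _ ≤ 2 * B * N := mul_le_mul e2 e1 (abs_nonneg _) (by positivity)
    have h1 := hcore B N (lam / 2) S₁ k₀ β a' hN hNB hlam2 hbig2 (by
      intro n hn
      have hn' := hn
      rw [hS₁, Finset.mem_erase, Finset.mem_Icc] at hn'
      have e1 : b 0 ≤ n := Int.ceil_le.1 hn'.2.1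
      have e2 : (n : ℝ) ≤ b 0 + N := Int.le_floor.1 hn'.2.2
      have h5 := neg_abs_le (b 0)
      have h6 := le_abs_self (b 0)
      exact ⟨hn'.1, abs_le.2 ⟨by linarith, by linarith⟩, hk₀ n hn⟩) (hsumle _)
    -- union bound
    set T : Set (ℝ × (Fin r → ℝ)) := {z ∈ cube r | lam < ‖FF r (box r b N) a z.1 z.2‖} with hT
    set T₀ : Set (ℝ × (Fin r → ℝ)) := {z ∈ cube r | lam / 2 <
      ‖FF r (bx r {1} β L) (fun ξ => a' (0, ξ.2)) z.1 z.2‖} with hT₀
    set T₁ : Set (ℝ × (Fin r → ℝ)) := {z ∈ cube r | lam / 2 <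
      ‖FF r (bx r S₁ β L) a' z.1 z.2‖} with hT₁
    have hsub : T ⊆ T₀ ∪ T₁ := by
      rintro z ⟨hz1, hz2⟩
      by_cases hz : lam / 2 < ‖FF r (bx r {1} β L) (fun ξ => a' (0, ξ.2)) z.1 z.2‖
      · exact Or.inl ⟨hz1, hz⟩
      · refine Or.inr ⟨hz1, ?_⟩
        rw [← norm_layer] at hz
        push Not at hz
        rw [hFF] at hz2
        have := norm_add_le (FF r (bx r {0} β L) a' z.1 z.2) (FF r (bx r S₁ β L) a' z.1 z.2)
        linarith
    have hfin₀ : volume T₀ ≠ ⊤ :=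
      ((measure_mono (fun z hz => hz.1)).trans_lt (cube_finite r)).ne
    have hfin₁ : volume T₁ ≠ ⊤ :=
      ((measure_mono (fun z hz => hz.1)).trans_lt (cube_finite r)).ne
    have hvol : (volume T).toReal ≤ (volume T₀).toReal + (volume T₁).toReal := by
      rw [← ENNReal.toReal_add hfin₀ hfin₁]
      exact ENNReal.toReal_mono (ENNReal.add_ne_top.2 ⟨hfin₀, hfin₁⟩)
        ((measure_mono hsub).trans (measure_union_le _ _))
    have hpow : (lam / 2) ^ (-(2 + 2 / ((r : ℝ) + 1))) ≤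
        8 * lam ^ (-(2 + 2 / ((r : ℝ) + 1))) := by
      rw [Real.div_rpow hlampos.le (by norm_num)]
      have e1 : (2 : ℝ) ^ (-(2 + 2 / ((r : ℝ) + 1))) ≥ 1 / 8 := by
        have e2 : (1 / 8 : ℝ) = 2 ^ (-3 : ℝ) := by
          rw [Real.rpow_neg (by norm_num)]
          norm_num
        rw [e2]
        apply Real.rpow_le_rpow_of_exponent_le (by norm_num)
        have e3 : 2 / ((r : ℝ) + 1) ≤ 1 := by
          rw [div_le_one (by positivity)]
          linarith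
        linarith
      rw [div_le_iff₀ (by positivity)]
      have e4 : 0 < lam ^ (-(2 + 2 / ((r : ℝ) + 1))) := by positivity
      have e5 := mul_le_mul_of_nonneg_left e1 (by positivity :
        0 ≤ 8 * lam ^ (-(2 + 2 / ((r : ℝ) + 1))))
      linarith
    have hfinal : C * (1 + Real.log N) ^ 2 * (lam / 2) ^ (-(2 + 2 / ((r : ℝ) + 1))) ≤
        C * (1 + Real.log N) ^ 2 * (8 * lam ^ (-(2 + 2 / ((r : ℝ) + 1)))) :=
      mul_le_mul_of_nonneg_left hpow (by positivity)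
    calc (volume T).toReal ≤ (volume T₀).toReal + (volume T₁).toReal := hvol
      _ ≤ C * (1 + Real.log N) ^ 2 * (8 * lam ^ (-(2 + 2 / ((r : ℝ) + 1)))) +
          C * (1 + Real.log N) ^ 2 * (8 * lam ^ (-(2 + 2 / ((r : ℝ) + 1)))) :=
          add_le_add (h0.trans hfinal) (h1.trans hfinal)
      _ = 16 * C * (1 + Real.log N) ^ 2 * lam ^ (-(2 + 2 / ((r : ℝ) + 1))) := by ring

end Pool.Agent.Helper63.AS.LSmid
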